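import Pool.Agent.Y118.HG.Awt
import Pool.Agent.L5helper52.WK.Aw

/-!
# Windows for arbitrary families and constants of transcendence degree `τ`, uniformly in the base field

Variants of `Pool.Agent.Y118.HG.awt` and `Pool.Agent.Y118.HG.awu` with other base fields.
-/

set_option autoImplicit false
set_option maxHeartbeats 400000

open Module
open scoped Pointwise

namespace Pool.Agent.L5helper52.HK

open Pool.Agent.Y916.Hil Pool.Agent.Y916.Gre Pool.Agent.Y916.Low Pool.Agent.Y916.Fld
open Pool.Agent.L5helper52.WK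
open Pool.Agent.Y118.HG (adjoin_pow)

theorem span_pow_mono {k : Type} [Field k] [Algebra k ℂ] {K : IntermediateField k ℂ} {s : Set ℂ} {W : Submodule K ℂ} (hs : ∀ z ∈ s, z ∈ W) {m : ℕ} {c : ℂ}
    (hc : c ∈ (Submodule.span ℚ s) ^ m) : c ∈ W ^ m := by
  have h1 : (Submodule.span K s) ^ m ≤ W ^ m := pow_le_pow_left' (Submodule.span_le.2 hs) m
  refine h1 ?_
  rw [Submodule.span_pow] at hc ⊢
  refine Submodule.span_induction (p := fun c _ => c ∈ Submodule.span K (s ^ m)) ?_ ?_ ?_ ?_ hc
  · intro x hx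
    exact Submodule.subset_span hx
  · exact Submodule.zero_mem _
  · intro x y _ _ hx hy
    exact Submodule.add_mem _ hx hy
  · intro q x _ hx
    have : q • x = ((q : ℚ) : K) • x := by
      rw [Algebra.smul_def, Algebra.smul_def, eq_ratCast, map_ratCast]
    rw [this]
    exact Submodule.smul_mem _ _ hx

/-- algebraic constants increase the Hilbert functions only by constant factors -/
theorem domK {υ : Type*} [DecidableEq υ] (w : υ → ℂ) (T : Finset υ)
    (hT : ∀ j, IsAlgebraic (Algebra.adjoin ℚ (w '' (T : Set υ))) (w j)) (U : Finset υ) :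
    ∃ A B : ℕ, ∀ (k : Subfield ℂ) (K : IntermediateField k ℂ) (W : Submodule K ℂ), W.FG → (1 : ℂ) ∈ W → (∀ j ∈ T, w j ∈ W) → ∀ Δ : ℕ,
      finrank K ((W ⊔ Submodule.span K (w '' (U : Set υ))) ^ Δ : Submodule K ℂ) ≤
        A * finrank K (W ^ (B * Δ) : Submodule K ℂ) := by
  induction U using Finset.induction_on with
  | empty =>
    refine ⟨1, 1, fun k K W _ _ _ Δ => ?_⟩
    rw [Finset.coe_empty, Set.image_empty, Submodule.span_empty, sup_bot_eq, one_mul, one_mul]
  | insert j U hj ih =>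
    obtain ⟨A, B, hAB⟩ := ih
    obtain ⟨p, hp0, hp⟩ := hT j
    choose m hm using fun i => adjoin_pow (p.coeff i).2
    set M := ∑ i ∈ Finset.range (p.natDegree + 1), m i with hM
    refine ⟨p.natDegree * A, B * (M + 1), fun k K W hW h1 hwT Δ => ?_⟩
    have hW' : (W ⊔ Submodule.span K (w '' (U : Set υ))).FG :=
      hW.sup (Submodule.fg_span (U.finite_toSet.image w))
    have h1' : (1 : ℂ) ∈ W ⊔ Submodule.span K (w '' (U : Set υ)) := Submodule.mem_sup_left h1
    have hc : ∀ i ≤ p.natDegree, ((p.coeff i : Algebra.adjoin ℚ (w '' (T : Set υ))) : ℂ) ∈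
        (W ⊔ Submodule.span K (w '' (U : Set υ))) ^ M := by
      intro i hi
      have h2 : m i ≤ M := Finset.single_le_sum (f := m) (fun _ _ => Nat.zero_le _) (Finset.mem_range.2 (by omega))
      refine Pool.Agent.Y916.Hil.pow_le_pow h1' h2 (span_pow_mono ?_ (hm i))
      intro z hz
      rcases hz with rfl | ⟨x, hx, rfl⟩
      · exact h1'
      · exact Submodule.mem_sup_left (hwT x (Finset.mem_coe.1 hx))
    have hlead : ((p.coeff p.natDegree : Algebra.adjoin ℚ (w '' (T : Set υ))) : ℂ) ≠ 0 := by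
      intro h
      have : p.coeff p.natDegree = 0 := Subtype.ext h
      exact hp0 (Polynomial.leadingCoeff_eq_zero.1 this)
    have hroot : ∑ i ∈ Finset.range (p.natDegree + 1), ((p.coeff i : Algebra.adjoin ℚ (w '' (T : Set υ))) : ℂ) * w j ^ i = 0 := by
      rw [Polynomial.aeval_eq_sum_range] at hp
      rw [← hp]
      exact Finset.sum_congr rfl fun i _ => by rw [Algebra.smul_def]; rfl
    have hdeg : 1 ≤ p.natDegree := by
      rcases Nat.eq_zero_or_pos p.natDegree with h | h
      · rw [h] at hroot hlead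
        rw [zero_add, Finset.sum_range_one, pow_zero, mul_one] at hroot
        exact absurd hroot hlead
      · exact h
    have hst := alg_step hW' h1' (w j) p.natDegree hdeg (fun i => ((p.coeff i : Algebra.adjoin ℚ (w '' (T : Set υ))) : ℂ))
      M hc hlead hroot Δ
    have hsplit : W ⊔ Submodule.span K (w '' ((insert j U : Finset υ) : Set υ)) =
        W ⊔ Submodule.span K (w '' (U : Set υ)) ⊔ Submodule.span K {w j} := by
      rw [sup_assoc, ← Submodule.span_union]
      congr 2
      rw [Finset.coe_insert, Set.image_insert_eq, Set.insert_eq, Set.union_comm]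
    rw [hsplit]
    refine hst.trans ?_
    have h3 := hAB k K W hW h1 hwT ((M + 1) * Δ)
    calc p.natDegree * finrank K ((W ⊔ Submodule.span K (w '' (U : Set υ))) ^ ((M + 1) * Δ) : Submodule K ℂ)
        ≤ p.natDegree * (A * finrank K (W ^ (B * ((M + 1) * Δ)) : Submodule K ℂ)) := Nat.mul_le_mul_left _ h3
      _ = _ := by rw [← mul_assoc, ← mul_assoc B]

/-- the numerical contradiction -/
theorem contraK {ι υ : Type*} [DecidableEq ι] [DecidableEq υ] [Fintype υ] {k : Type} [Field k] [Algebra k ℂ]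
    (K : IntermediateField k ℂ) [FiniteDimensional k K] {D δ n A B : ℕ} (hD : finrank k K ≤ D) (w : υ → ℂ) (T : Finset υ)
    (hAB : ∀ (W : Submodule K ℂ), W.FG → (1 : ℂ) ∈ W → (∀ j ∈ T, w j ∈ W) → ∀ Δ : ℕ,
      finrank K ((W ⊔ Submodule.span K (w '' ((Finset.univ : Finset υ) : Set υ))) ^ Δ : Submodule K ℂ) ≤
        A * finrank K (W ^ (B * Δ) : Submodule K ℂ))
    (y : ι → ℂ) (Θ S : Finset ι) (hSΘ : S ⊆ Θ) (hS : S.card = T.card + 1)
    (hn : Θ.card = n) (f : Fin n → ℂ)
    (hf : ∀ s, f s ∈ Submodule.span K (insert 1 (Set.range w)) ⊔ Submodule.span K (y '' (Θ : Set ι)))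
    (hub : ∀ Δ : ℕ, finrank K ((Submodule.span K (insert 1 (Set.range w)) ⊔ Submodule.span K (y '' (Θ : Set ι))) ^ Δ :
        Submodule K ℂ) ≤ δ ^ (T.card + 1) * finrank K ((Submodule.span K (insert 1 (Set.range w)) ⊔
          Submodule.span K (y '' ((Θ \ S : Finset ι) : Set ι))) ^ ((2 * δ + 1) ^ (T.card + 1) * Δ) : Submodule K ℂ))
    (hrel : ∀ P : MvPolynomial (Fin n) k, P.totalDegree ≤
      n * (D * (δ ^ (T.card + 1) * A) * ((B + 1) * (2 * δ + 1) ^ (T.card + 1) * n) ^ (n - 1)) →
      MvPolynomial.aeval f P = 0 → P = 0) :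
    False := by
  have hVfg : (Submodule.span K (insert (1 : ℂ) (Set.range w))).FG :=
    Submodule.fg_span ((Set.finite_range w).insert 1)
  have h1 : (1 : ℂ) ∈ Submodule.span K (insert (1 : ℂ) (Set.range w)) :=
    Submodule.subset_span (Set.mem_insert _ _)
  set X := (B + 1) * (2 * δ + 1) ^ (T.card + 1) * n with hX
  set M := D * (δ ^ (T.card + 1) * A) * X ^ (n - 1) with hM
  have hcard : T.card + 1 ≤ n := by
    rw [← hS, ← hn]
    exact Finset.card_le_card hSΘ
  have hlow := lower K (M := M) f _ (fg_aux hVfg y Θ) (Submodule.mem_sup_left h1) hf hrel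
  have hup := hub (n * M)
  set W : Submodule K ℂ := Submodule.span K (insert 1 (w '' (T : Set υ))) ⊔
    Submodule.span K (y '' ((Θ \ S : Finset ι) : Set ι)) with hW
  have hWfg : W.FG := fg_aux (Submodule.fg_span ((T.finite_toSet.image w).insert 1)) y _
  have hW1 : (1 : ℂ) ∈ W := Submodule.mem_sup_left (Submodule.subset_span (Set.mem_insert _ _))
  have hWT : ∀ j ∈ T, w j ∈ W := fun j hj =>
    Submodule.mem_sup_left (Submodule.subset_span (Set.mem_insert_of_mem _ ⟨j, Finset.mem_coe.2 hj, rfl⟩))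
  have hle : Submodule.span K (insert 1 (Set.range w)) ⊔ Submodule.span K (y '' ((Θ \ S : Finset ι) : Set ι)) ≤
      W ⊔ Submodule.span K (w '' ((Finset.univ : Finset υ) : Set υ)) := by
    refine sup_le (Submodule.span_le.2 ?_) ?_
    · rintro z (rfl | ⟨j, rfl⟩)
      · exact Submodule.mem_sup_left hW1
      · exact Submodule.mem_sup_right (Submodule.subset_span ⟨j, by simp, rfl⟩)
    · exact le_sup_of_le_left le_sup_right
  have he : W = Submodule.span K (insert 1 ((Sum.elim w y) '' ((T.disjSum (Θ \ S) :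
          Finset (υ ⊕ ι)) : Set (υ ⊕ ι)))) := by
    rw [hW, ← Submodule.span_union]
    congr 1
    ext v
    simp only [Set.mem_union, Set.mem_insert_iff, Set.mem_image, Finset.mem_coe, Finset.mem_sdiff,
      Finset.mem_disjSum]
    constructor
    · rintro ((h | ⟨i, hi, rfl⟩) | ⟨i, hi, rfl⟩)
      · exact Or.inl h
      · exact Or.inr ⟨Sum.inl i, Or.inl ⟨i, hi, rfl⟩, rfl⟩
      · exact Or.inr ⟨Sum.inr i, Or.inr ⟨i, hi, rfl⟩, rfl⟩
    · rintro (h | ⟨x, ⟨i, hi, rfl⟩ | ⟨i, hi, rfl⟩, rfl⟩)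
      · exact Or.inl (Or.inl h)
      · exact Or.inl (Or.inr ⟨i, hi, rfl⟩)
      · exact Or.inr ⟨i, hi, rfl⟩
  have hfin1 : FiniteDimensional K ((W ⊔ Submodule.span K (w '' ((Finset.univ : Finset υ) : Set υ))) ^
      ((2 * δ + 1) ^ (T.card + 1) * (n * M)) : Submodule K ℂ) :=
    fin_pow (hWfg.sup (Submodule.fg_span ((Finset.univ : Finset υ).finite_toSet.image w))) _
  have hfree : finrank K ((Submodule.span K (insert 1 (Set.range w)) ⊔
      Submodule.span K (y '' ((Θ \ S : Finset ι) : Set ι))) ^ ((2 * δ + 1) ^ (T.card + 1) * (n * M)) : Submodule K ℂ)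
      ≤ A * (B * ((2 * δ + 1) ^ (T.card + 1) * (n * M)) + 1) ^ (n - 1) := by
    refine (Submodule.finrank_mono (pow_le_pow_left' hle _)).trans ?_
    refine (hAB W hWfg hW1 hWT _).trans (Nat.mul_le_mul_left _ ?_)
    rw [he]
    refine (free_many (K := K) _ (Sum.elim w y) _).trans (le_of_eq ?_)
    rw [Finset.card_disjSum, Finset.card_sdiff_of_subset hSΘ, hS, hn]
    congr 1
    omega
  have hXM : B * ((2 * δ + 1) ^ (T.card + 1) * (n * M)) + 1 ≤ X * (M + 1) := by
    have hXpos : 1 ≤ X := Nat.one_le_iff_ne_zero.2 (Nat.mul_ne_zero (by positivity) (by omega))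
    have h3 : B * ((2 * δ + 1) ^ (T.card + 1) * (n * M)) ≤ X * M := by
      rw [hX]
      have : (B + 1) * (2 * δ + 1) ^ (T.card + 1) * n * M =
        B * ((2 * δ + 1) ^ (T.card + 1) * (n * M)) + (2 * δ + 1) ^ (T.card + 1) * (n * M) := by ring
      rw [this]
      exact Nat.le_add_right _ _
    nlinarith
  have hfin : (M + 1) ^ n ≤ (D * (δ ^ (T.card + 1) * A) * X ^ (n - 1)) * (M + 1) ^ (n - 1) := by
    calc (M + 1) ^ n ≤ finrank k K * (δ ^ (T.card + 1) * (A * (X * (M + 1)) ^ (n - 1))) :=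
          hlow.trans (Nat.mul_le_mul_left _ (hup.trans (Nat.mul_le_mul_left _
            (hfree.trans (Nat.mul_le_mul_left _ (Nat.pow_le_pow_left hXM _))))))
      _ ≤ D * (δ ^ (T.card + 1) * (A * (X * (M + 1)) ^ (n - 1))) := Nat.mul_le_mul_right _ hD
      _ = _ := by rw [mul_pow]; ring
  rw [← hM] at hfin
  have hpos : 0 < (M + 1) ^ (n - 1) := by positivity
  have hn1 : (M + 1) ^ n = (M + 1) * (M + 1) ^ (n - 1) := by
    rw [← pow_succ']
    congr 1
    omega
  rw [hn1] at hfin
  have := Nat.le_of_mul_le_mul_right hfin hpos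
  omega

/-- the relation with the values substituted for the constants -/
noncomputable def Qt {υ ι κ : Type*} {k : Type} [Field k] [Algebra k ℂ] (K : IntermediateField k ℂ) (w : υ → ℂ) (β : κ → ι) (P : MvPolynomial (υ ⊕ κ) K) :
    MvPolynomial ι ℂ :=
  MvPolynomial.aeval (Sum.elim (fun j => MvPolynomial.C (w j)) fun i => MvPolynomial.X (β i)) P

theorem Qt_eq {υ ι κ : Type*} {k : Type} [Field k] [Algebra k ℂ] (K : IntermediateField k ℂ) (w : υ → ℂ) (β : κ → ι) (P : MvPolynomial (υ ⊕ κ) K) :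
    Qt K w β P = MvPolynomial.rename β (MvPolynomial.aeval
      (Sum.elim (fun j => MvPolynomial.C (w j)) MvPolynomial.X) P : MvPolynomial κ ℂ) := by
  unfold Qt
  have h : (MvPolynomial.aeval (Sum.elim (fun j => MvPolynomial.C (w j)) fun i => MvPolynomial.X (β i)) :
        MvPolynomial (υ ⊕ κ) K →ₐ[K] MvPolynomial ι ℂ)
      = (((MvPolynomial.rename β : MvPolynomial κ ℂ →ₐ[ℂ] MvPolynomial ι ℂ)).restrictScalars K).comp
        (MvPolynomial.aeval (Sum.elim (fun j => MvPolynomial.C (w j)) MvPolynomial.X)) := by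
    refine MvPolynomial.algHom_ext fun i => ?_
    rcases i with j | i
    · simp
    · simp
  exact DFunLike.congr_fun h P

theorem aeval_Qt {υ ι κ : Type*} {k : Type} [Field k] [Algebra k ℂ] (K : IntermediateField k ℂ) (w : υ → ℂ) (β : κ → ι) (P : MvPolynomial (υ ⊕ κ) K)
    (y : ι → ℂ) : MvPolynomial.aeval y (Qt K w β P) = MvPolynomial.aeval (Sum.elim w fun i => y (β i)) P := by
  unfold Qt
  have h : ((MvPolynomial.aeval y : MvPolynomial ι ℂ →ₐ[ℂ] ℂ).restrictScalars K).comp
      (MvPolynomial.aeval (Sum.elim (fun j => MvPolynomial.C (w j)) fun i => MvPolynomial.X (β i)))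
      = (MvPolynomial.aeval (Sum.elim w fun i => y (β i)) : MvPolynomial (υ ⊕ κ) K →ₐ[K] ℂ) := by
    refine MvPolynomial.algHom_ext fun i => ?_
    rcases i with j | i
    · simp
    · simp
  exact DFunLike.congr_fun h P

theorem Qt_ok {υ ι κ : Type*} [DecidableEq υ] [DecidableEq ι] [DecidableEq κ] [Fintype κ] {k : Type} [Field k]
    [Algebra k ℂ] (K : IntermediateField k ℂ)
    (w : υ → ℂ) (β : κ → ι) (P : MvPolynomial (υ ⊕ κ) K) {δ : ℕ} (hP : P.totalDegree ≤ δ) :
    Ok ((Submodule.span K (insert (1 : ℂ) (Set.range w)) ^ δ : Submodule K ℂ) : Set ℂ) δ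
      (Finset.univ.image β) (Qt K w β P) := by
  have h1 : (1 : ℂ) ∈ Submodule.span K (insert (1 : ℂ) (Set.range w)) := Submodule.subset_span (Set.mem_insert _ _)
  refine ok_aeval h1 ?_ hP
  rintro (j | i)
  · exact ok_C (by rw [pow_one]; exact Submodule.subset_span (Set.mem_insert_of_mem _ ⟨j, rfl⟩))
  · exact ok_X (A := Finset.univ.image β) h1 (Finset.mem_image_of_mem β (Finset.mem_univ i))

/-- **Windows for arbitrary families, constants algebraic over `ℚ(w_T)`, all base fields of a class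
and their extensions of bounded degree** -/
theorem awuK (C : Set (Subfield ℂ)) {σ υ : Type} [Fintype σ] [DecidableEq σ] [Fintype υ] [DecidableEq υ] (val : ℕ → ℕ → σ → ℂ)
    (hval : Inp C val) (w : υ → ℂ) (T : Finset υ)
    (hT : ∀ j, IsAlgebraic (Algebra.adjoin ℚ (w '' (T : Set υ))) (w j)) (r d δ : ℕ) :
    ∃ E : ℕ, ∀ H t : ℕ, (H + 2) ^ E ≤ t → ∀ k ∈ C,
    ∃ S : Finset ℕ, S.card ≤ T.card ∧ ∀ g : Fin r → ℕ, Function.Injective g → (∀ i, 1 ≤ g i ∧ g i ≤ H ∧ g i ∉ S) →
      ∀ K : IntermediateField k ℂ, FiniteDimensional k K → finrank k K ≤ d →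
      ∀ P : MvPolynomial (υ ⊕ Fin r × σ) K, P.totalDegree ≤ δ →
      MvPolynomial.aeval (Sum.elim w fun p => val t (g p.1) p.2) P = 0 →
      MvPolynomial.aeval (Sum.elim (fun j => MvPolynomial.C (w j)) MvPolynomial.X) P
        = (0 : MvPolynomial (Fin r × σ) ℂ) := by
  classical
  obtain ⟨A, B, hAB⟩ := domK w T hT Finset.univ
  set q : ℕ := T.card + 1 with hq
  set r' : ℕ := r * Fintype.card σ with hr'
  set N0 : ℕ := q * r' with hN0
  choose Ev hEv using fun N : ℕ => hval N ((N * Fintype.card σ) *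
    ((d + 1) ^ q * (δ ^ (T.card + 1) * A) * ((B + 1) * (2 * δ + 1) ^ (T.card + 1) * (N * Fintype.card σ)) ^
      (N * Fintype.card σ - 1)))
  refine ⟨∑ N ∈ Finset.range (N0 + 1), Ev N, ?_⟩
  intro H t ht k hkC
  by_contra hcon
  push Not at hcon
  set y : ℕ × σ → ℂ := fun p => val t p.1 p.2 with hy
  set Co : {K : IntermediateField k ℂ // FiniteDimensional k K ∧ finrank k K ≤ d} → Set ℂ := fun K =>
    ((Submodule.span K.1 (insert (1 : ℂ) (Set.range w)) ^ δ : Submodule K.1 ℂ) : Set ℂ) with hCo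
  obtain ⟨S, Bs, I, hS, hSB, hBr, hIr, hBa, hrk⟩ := greedyU (k := k) (y := y) (Co := Co)
    (fun K => Submodule.zero_mem _) (δ := δ) q r' (fun p => 1 ≤ p.1 ∧ p.1 ≤ H) (by
      intro S hS
      obtain ⟨g, hinj, hg, K, hKf, hKd, P, hP, hP0, hPne⟩ := hcon (S.image Prod.fst)
        (Finset.card_image_le.trans (by omega))
      set β : Fin r × σ → ℕ × σ := fun p => (g p.1, p.2) with hβ
      have hβinj : Function.Injective β := by
        rintro ⟨i, s⟩ ⟨i', s'⟩ h
        simp only [hβ, Prod.mk.injEq] at h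
        rw [hinj h.1, h.2]
      refine ⟨Finset.univ.image β, ?_, ?_, ?_, ⟨K, hKf, hKd⟩, Qt K w β P, ?_,
        Qt_ok K w β P hP, ?_⟩
      · refine Finset.card_image_le.trans ?_
        rw [Finset.card_univ, Fintype.card_prod, Fintype.card_fin]
      · intro b hb
        obtain ⟨i, -, rfl⟩ := Finset.mem_image.1 hb
        exact ⟨(hg i.1).1, (hg i.1).2.1⟩
      · rw [Finset.disjoint_left]
        intro b hb hbS
        obtain ⟨i, -, rfl⟩ := Finset.mem_image.1 hb
        exact (hg i.1).2.2 (Finset.mem_image_of_mem Prod.fst hbS)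
      · rw [Qt_eq]
        intro h0
        exact hPne (MvPolynomial.rename_injective β hβinj (h0.trans (map_zero _).symm))
      · rw [aeval_Qt]
        exact hP0)
  obtain ⟨L, hLf, hLd, hL⟩ := compositum I
  have hLd' : finrank k L ≤ (d + 1) ^ q := by
    refine hLd.trans ((Nat.pow_le_pow_left (Nat.le_succ d) _).trans ?_)
    exact Nat.pow_le_pow_right (Nat.succ_pos d) hIr
  set V : Submodule L ℂ := Submodule.span L (insert (1 : ℂ) (Set.range w)) with hV
  set G : Finset ℕ := Bs.image Prod.fst with hG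
  set N : ℕ := G.card with hN
  have hNN0 : N ≤ N0 := Finset.card_image_le.trans hBr
  set eG : Fin N ≃ G := G.equivFin.symm with heG
  set g : Fin N → ℕ := fun l => (eG l : ℕ) with hg
  have hginj : Function.Injective g := fun l l' h => eG.injective (Subtype.ext h)
  have hgb : ∀ l, 1 ≤ g l ∧ g l ≤ H := by
    intro l
    obtain ⟨b, hb, hbl⟩ := Finset.mem_image.1 (eG l).2
    have := hBa b hb
    rw [hbl] at this
    exact this
  set Θ : Finset (ℕ × σ) := G ×ˢ Finset.univ with hΘ
  have hBΘ : Bs ⊆ Θ := by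
    intro b hb
    rw [hΘ, Finset.mem_product]
    exact ⟨Finset.mem_image_of_mem _ hb, Finset.mem_univ _⟩
  have hcard : Θ.card = N * Fintype.card σ := by
    rw [hΘ, Finset.card_product, Finset.card_univ]
  set n : ℕ := N * Fintype.card σ with hn
  have en : Fin n ≃ Fin N × σ := (Fintype.equivFinOfCardEq (by rw [Fintype.card_prod, Fintype.card_fin])).symm
  have hVfg : V.FG := Submodule.fg_span ((Set.finite_range w).insert 1)
  have hV1 : (1 : ℂ) ∈ V := Submodule.subset_span (Set.mem_insert _ _)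
  have hub := hrk L V hVfg hV1 (fun K hK c hc => span_pow_field (hL K hK) hc) Θ hBΘ
  refine contraK L hLd' w T (hAB k L) y Θ S (hSB.trans hBΘ) hS hcard (fun s : Fin n => y (g (en s).1, (en s).2)) ?_ hub ?_
  · intro s
    refine Submodule.mem_sup_right (Submodule.subset_span ⟨(g (en s).1, (en s).2), ?_, rfl⟩)
    rw [Finset.mem_coe, hΘ, Finset.mem_product]
    exact ⟨(eG (en s).1).2, Finset.mem_univ _⟩
  · intro P hP hP0
    have hbig : (H + 2) ^ Ev N ≤ t := by
      refine le_trans (Nat.pow_le_pow_right (by omega) ?_) ht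
      exact Finset.single_le_sum (f := Ev) (fun i _ => Nat.zero_le _) (Finset.mem_range.2 (by omega))
    have h1 := hEv N H t hbig k hkC g hginj hgb (MvPolynomial.rename en P)
      ((MvPolynomial.totalDegree_rename_le _ _).trans hP) (by
        rw [MvPolynomial.aeval_rename]
        exact hP0)
    exact MvPolynomial.rename_injective en en.injective (h1.trans (map_zero _).symm)

end Pool.Agent.L5helper52.HK
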