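import Pool.Agent.L5helper52.WK.Meas
import Pool.Agent.TH456.TM.Inst

/-!
# `2πi` is transcendental over simultaneously Liouville fields
-/

set_option autoImplicit false

namespace Pool.Agent.L5helper52.HK

open Polynomial Pool.Agent.TH456.TM
open Pool.Agent.L5helper52.LL (SL)
open Pool.Agent.L5helper52.WK (li_of_measure)

/-- a number with transcendence measures of polynomial type is transcendental over every simultaneously Liouville
field -/
theorem transc_of_measT {K : Subfield ℂ} (hK : SL K) (θ : ℂ) (hθ : MeasT θ) : Transcendental K θ := by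
  classical
  rintro ⟨P, hP0, hP⟩
  set D := P.natDegree with hD
  obtain ⟨κ, c, hκ, hc, h⟩ := hθ D
  have hlin := li_of_measure hK (fun i : Fin (D + 1) => θ ^ (i : ℕ)) c hc ⌈κ⌉₊ (fun z hz H hH hzH => by
    set Q : ℤ[X] := ∑ i : Fin (D + 1), C (z i) * X ^ (i : ℕ) with hQ
    have hcoef : ∀ j : ℕ, Q.coeff j = if hj : j < D + 1 then z ⟨j, hj⟩ else 0 := by
      intro j
      rw [hQ, Polynomial.finsetSum_coeff]
      split_ifs with hj
      · rw [Finset.sum_eq_single (⟨j, hj⟩ : Fin (D + 1))]
        · simp
        · intro i _ hi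
          rw [Polynomial.coeff_C_mul, Polynomial.coeff_X_pow, if_neg, mul_zero]
          intro h0
          exact hi (Fin.ext h0.symm)
        · intro h0
          exact absurd (Finset.mem_univ _) h0
      · refine Finset.sum_eq_zero fun i _ => ?_
        rw [Polynomial.coeff_C_mul, Polynomial.coeff_X_pow, if_neg, mul_zero]
        have := i.2
        omega
    have hQ0 : Q ≠ 0 := by
      intro h0
      apply hz
      funext i
      have h1 := hcoef i
      rw [h0, Polynomial.coeff_zero, dif_pos i.2] at h1
      exact h1.symm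
    have hdeg : Q.natDegree ≤ D := by
      rw [Polynomial.natDegree_le_iff_coeff_eq_zero]
      intro j hj
      rw [hcoef, dif_neg (by omega)]
    have hmain := h Q hQ0 hdeg H hH (fun j => by
      rw [hcoef]
      split_ifs with hj
      · exact hzH _
      · rw [Int.cast_zero, abs_zero]; linarith)
    have e1 : (aeval θ) Q = ∑ i : Fin (D + 1), (z i : ℂ) * θ ^ (i : ℕ) := by
      rw [hQ, map_sum]
      refine Finset.sum_congr rfl fun i _ => ?_
      simp
    rw [e1] at hmain
    have hH0 : (0 : ℝ) < H := by linarith
    have h2 : H ^ κ ≤ H ^ ⌈κ⌉₊ := by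
      rw [← Real.rpow_natCast]
      exact Real.rpow_le_rpow_of_exponent_le hH (Nat.le_ceil κ)
    exact hmain.trans (mul_le_mul_of_nonneg_right h2 (norm_nonneg _)))
    (fun i => ((P.coeff i : K) : ℂ)) (fun i => (P.coeff i).2) (by
      rw [Polynomial.aeval_eq_sum_range] at hP
      rw [← hP, Finset.sum_range]
      rfl)
  apply hP0
  ext j
  by_cases hj : j < D + 1
  · have h1 := congrFun hlin ⟨j, hj⟩
    rw [Polynomial.coeff_zero]
    exact h1
  · rw [Polynomial.coeff_zero]
    rw [Polynomial.coeff_eq_zero_of_natDegree_lt (by omega)]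

/-- `2πi` is transcendental over the algebraic extensions of simultaneously Liouville fields -/
theorem transc_two_pi_I {K : Subfield ℂ} (hK : SL K) (L : IntermediateField K ℂ) [FiniteDimensional K L] :
    Transcendental L (2 * Real.pi * Complex.I : ℂ) := by
  intro h
  have h1 : IsAlgebraic K (2 * Real.pi * Complex.I : ℂ) := h.restrictScalars K
  have hI : IsAlgebraic K (Complex.I : ℂ) := by
    refine ⟨X ^ 2 + 1, ?_, by simp⟩
    intro h0
    have := congrArg (Polynomial.coeff · 0) h0
    simp at this
  have h2 : IsAlgebraic K (2 : ℂ) := by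
    have h5 := isAlgebraic_algebraMap (R := K) (A := ℂ) (2 : K)
    rwa [map_ofNat] at h5
  have hne := Complex.I_ne_zero
  have h3 : (Real.pi : ℂ) = (2 * Real.pi * Complex.I) * (2 * Complex.I)⁻¹ := by field_simp
  refine transc_of_measT hK _ measT_pi ?_
  rw [h3]
  exact h1.mul (h2.mul hI).inv

end Pool.Agent.L5helper52.HK
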