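import Pool.Agent.Y118.HG.Win
import Pool.Agent.L5helper52.WK.GMeas

/-!
# Linear independence of the values for separated shifts over simultaneously Liouville fields

The proof is that of `Pool.Agent.Y118.HG.li_val` with another theorem on `G`-systems.
-/

set_option autoImplicit false
set_option maxHeartbeats 400000

open Matrix Polynomial Filter Topology

namespace Pool.Agent.L5helper52.HK

open Pool.Agent.Y118.HG Pool.Agent.Y118.HP Pool.Agent.Y113 Pool.Agent.Y37.GF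
open Pool.Agent.L5helper52.LL (SL)
open Pool.Agent.L5helper52.WK (G_SL)

variable {n N : ℕ}

/-- linear independence of the values for separated shifts over simultaneously Liouville fields -/
theorem li_valK (hn : Even n) {a : Fin n → ℝ} (ha : StrictMono a) (ha0 : ∀ i, a i ≠ 0) {m : Fin (n + 1)} {f : ℚ[X]}
    (h0 : InGap a m 0) (hf : f.map (algebraMap ℚ ℝ) = ∏ i, (X - C (a i))) (hf0 : f.coeff 0 ≠ 0) (Δ : ZDat n a m f)
    {G0 : ℕ} (hsep : ∀ {r : ℕ} (g : Fin r → ℕ), SepN G0 g → Sep a (fun l => (g l : ℝ)))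
    (D0 : ℕ) {κ : Type} [Fintype κ] (k0 : κ) (b : κ → Fin n × Fin n → ℕ) (w : (Fin n × Fin n → ℕ) → κ → ℚ)
    (hb0 : b k0 = 0) (hbD : ∀ k, dg (b k) ≤ D0)
    (hw : ∀ s, dg s ≤ D0 → ∀ g ∈ SpS ℂ n, mnm g s = ∑ k, (w s k : ℂ) * mnm g (b k))
    (hb : ∀ x : κ → ℂ, (∀ g ∈ SpS ℂ n, ∑ k, x k * mnm g (b k) = 0) → x = 0) (N : ℕ) :
    ∃ E : ℕ, ∀ H t : ℕ, (H + 2) ^ E ≤ t → (H : ℝ) < t ∧ ∀ g : Fin N → ℕ, SepN G0 g → (∀ i, g i ≤ H) →
      ∀ K : Subfield ℂ, SL K → ∀ c : (Fin N → κ) → ℂ, (∀ e, c e ∈ K) →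
        ∑ e, c e * ((∏ i, mnm (Ez Δ.Z (1 / ((t : ℝ) - g i))) (b (e i)) : ℝ) : ℂ) = 0 → c = 0 := by
  classical
  obtain ⟨q, E, TT, hGS, hTT⟩ := Pool.Agent.Y46.HG.t_one n f (fun i j => Δ.A i j) (fun i j => Δ.Z i j)
    (fun i j => Δ.W i j) hf0 Δ.ode (by
      intro i j
      have h1 := congrFun (congrFun Δ.WZ i) j
      rw [Matrix.mul_apply, Matrix.one_apply] at h1
      exact h1) Δ.sdZ Δ.sdW
  obtain ⟨ρ', hρ', hZ'⟩ := SDc_SR' (fun p : Fin n × Fin n => Δ.Z p.1 p.2) fun p => Δ.sdZ p.1 p.2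
  set ρ := min ρ' 1 with hρ
  have hρ0 : 0 < ρ := lt_min hρ' one_pos
  have hρ1 : ρ ≤ 1 := min_le_right _ _
  have hZ : SRm ρ Δ.Z := fun i j => (hZ' (i, j)).mono hρ0.le (min_le_left _ _)
  -- the functions
  set y : ℕ → Fin n × Fin n → PowerSeries ℚ := fun g p => (Δ.Z p.1 p.2).subst (sh g) with hy
  have hmy : ∀ (g : ℕ) (s : Fin n × Fin n → ℕ), ∏ p, y g p ^ s p = mnm (Zg Δ.Z g) s := by
    intro g s
    unfold mnm
    refine Finset.prod_congr rfl fun p _ => ?_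
    rw [Zg_apply]
  have hmon := Pool.Agent.Y678.HG.t_mon (Fin n × Fin n) κ D0 b w TT y q E (fun k => hbD k) (by
    intro g s hs
    rw [hmy]
    simp only [hmy]
    exact mnm_id Δ.zJ hρ0 hZ hw s hs g) hGS
  obtain ⟨q', E', h1⟩ := hmon N
  obtain ⟨EG, hG⟩ := G_SL (Fintype.card (Fin N → κ)) q'
  obtain ⟨e1, he1⟩ : ∃ e1 : ℕ, 1 / ρ ≤ (2 : ℝ) ^ e1 := by
    obtain ⟨e1, he1⟩ := pow_unbounded_of_one_lt (1 / ρ) (show (1 : ℝ) < 2 by norm_num)
    exact ⟨e1, he1.le⟩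
  refine ⟨E + (E' + 1) * EG + (3 + e1), fun H t ht => ?_⟩
  have hH2 : 1 ≤ H + 2 := by omega
  have htR : ∀ a ≤ E + (E' + 1) * EG + (3 + e1), ((H : ℝ) + 2) ^ a ≤ t := by
    intro a ha'
    have h2 : (H + 2) ^ a ≤ t := (Nat.pow_le_pow_right hH2 ha').trans ht
    exact_mod_cast h2
  have hHR : (0 : ℝ) ≤ H := by positivity
  have h4 : ((H : ℝ) + 8) * (1 / ρ) ≤ t := by
    have h5 : (H : ℝ) + 8 ≤ ((H : ℝ) + 2) ^ 3 := by nlinarith [sq_nonneg (H : ℝ), mul_nonneg hHR (sq_nonneg (H : ℝ))]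
    have h6 : 1 / ρ ≤ ((H : ℝ) + 2) ^ e1 := he1.trans (pow_le_pow_left₀ (by norm_num) (by linarith) _)
    calc ((H : ℝ) + 8) * (1 / ρ) ≤ ((H : ℝ) + 2) ^ 3 * ((H : ℝ) + 2) ^ e1 :=
          mul_le_mul h5 h6 (by positivity) (by positivity)
      _ = ((H : ℝ) + 2) ^ (3 + e1) := by rw [pow_add]
      _ ≤ t := htR _ (by omega)
  have h8 : (0 : ℝ) < (H : ℝ) + 8 := by positivity
  have ht0 : (0 : ℝ) < t := lt_of_lt_of_le (by positivity) h4
  have hHt : (H : ℝ) < t := by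
    have : (H : ℝ) + 8 ≤ ((H : ℝ) + 8) * (1 / ρ) := le_mul_of_one_le_right h8.le (by
      rw [le_div_iff₀ hρ0]; linarith)
    linarith
  refine ⟨hHt, fun g hg hgH K hK c hc hc0 => ?_⟩
  have h2 := h1 H g hgH
  set wf : (Fin N → κ) → PowerSeries ℚ := fun e => ∏ l, mnm (Zg Δ.Z (g l)) (b (e l)) with hwf
  have h3 : (fun e : Fin N → κ => ∏ l, ∏ i, y (g l) i ^ b (e l) i) = wf := by
    funext e
    exact Finset.prod_congr rfl fun l _ => hmy (g l) (b (e l))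
  rw [h3] at h2
  have hone : wf (fun _ => k0) = 1 := by
    rw [hwf]
    refine Finset.prod_eq_one fun l _ => ?_
    rw [hb0]
    simp [mnm]
  have hPT : Polynomial.aeval (1 / (t : ℝ)) (∏ p, TT (g p)) ≠ 0 := by
    rw [map_prod, Finset.prod_ne_zero_iff]
    intro p _
    refine hTT (g p) t ?_
    have hgR : ((g p : ℕ) : ℝ) + 2 ≤ (H : ℝ) + 2 := by
      have : ((g p : ℕ) : ℝ) ≤ H := by exact_mod_cast hgH p
      linarith
    exact (pow_le_pow_left₀ (by positivity) hgR _).trans (htR E (by omega))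
  have hind := hG (Fin N → κ) (((H : ℝ) + 2) ^ E') (∏ p, TT (g p)) wf (fun _ => k0) t le_rfl h2 hone
    (li_shift hn ha ha0 h0 hf Δ b hb g (hsep g hg)) ((pow_base H _ _).trans (htR _ (by omega))) hPT
  have hval : (fun e : Fin N → κ => ∏ i, mnm (Ez Δ.Z (1 / ((t : ℝ) - g i))) (b (e i))) = fun e => ev t (wf e) := by
    funext e
    have hz : ∀ l, |1 / (t : ℝ)| ≤ ρ / ((g l : ℝ) + 8) := by
      intro l
      have hg8 : (0 : ℝ) < (g l : ℝ) + 8 := by positivity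
      have hgl : (g l : ℝ) ≤ H := by exact_mod_cast hgH l
      rw [abs_of_pos (by positivity), div_le_div_iff₀ ht0 hg8, one_mul]
      have h7 : ((H : ℝ) + 8) * (1 / ρ) * ρ = (H : ℝ) + 8 := by field_simp
      nlinarith
    have hr0 : (0 : ℝ) ≤ |1 / (t : ℝ)| := abs_nonneg _
    have hSR : ∀ l, SRm |1 / (t : ℝ)| (Zg Δ.Z (g l)) := fun l => (Zg_SRm (g l) hρ0 hρ1 hZ).mono hr0 (hz l)
    rw [ev_eq, hwf]
    simp only
    rw [E_prod Finset.univ (F := fun l => mnm (Zg Δ.Z (g l)) (b (e l))) hr0 (fun l _ => SR_mnm hr0 (hSR l) _) le_rfl]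
    refine Finset.prod_congr rfl fun l _ => ?_
    rw [E_mnm hr0 (hSR l) _ le_rfl, Zg_Ez (g l) hρ0 hρ1 hZ (hz l)]
    congr 2
    have hgl : (g l : ℝ) ≤ H := by exact_mod_cast hgH l
    have h5 : (t : ℝ) - g l ≠ 0 := (sub_pos.2 (by linarith)).ne'
    have h6 : 1 - (g l : ℝ) * (1 / t) = (t - g l) / t := by field_simp
    rw [h6]
    field_simp
  refine hind K hK c hc ?_
  rw [← hc0]
  refine Finset.sum_congr rfl fun e _ => ?_
  rw [congrFun hval e]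

end Pool.Agent.L5helper52.HK
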