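import Pool.Agent.Y118.HG.Nr
import Pool.Agent.L5helper52.WK.Aw
import Pool.Agent.L5helper52.HK.Gi

/-!
# The Cayley coordinates of the values have no relations of bounded degree over simultaneously Liouville fields

The proof is that of `Pool.Agent.Y118.HG.inp` with other coefficients.
-/

set_option autoImplicit false
set_option maxHeartbeats 400000

open Matrix Polynomial Filter Topology

namespace Pool.Agent.L5helper52.HK

open Pool.Agent.Y118.HG Pool.Agent.Y118.HP Pool.Agent.Y113 Pool.Agent.Y37.GF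
open Pool.Agent.L5helper52.LL (SL)
open Pool.Agent.L5helper52.WK (Inp NoRel)

variable {n N : ℕ}

/-- a subfield as a vector space over `ℚ` -/
def subm (K : Subfield ℂ) : Submodule ℚ ℂ where
  carrier := K
  add_mem' := K.add_mem
  zero_mem' := K.zero_mem
  smul_mem' q x hx := by
    rw [Algebra.smul_def]
    exact K.mul_mem (SubfieldClass.ratCast_mem K q) hx

/-- no relations of bounded degree over simultaneously Liouville fields between the coordinates of the values -/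
theorem inpK (hn : Even n) {a : Fin n → ℝ} (ha : StrictMono a) (ha0 : ∀ i, a i ≠ 0) {m : Fin (n + 1)} {f : ℚ[X]}
    (h0 : InGap a m 0) (hf : f.map (algebraMap ℚ ℝ) = ∏ i, (X - C (a i))) (hf0 : f.coeff 0 ≠ 0) (Δ : ZDat n a m f)
    {G0 : ℕ} (hG0 : 0 < G0) (hsep : ∀ {r : ℕ} (g : Fin r → ℕ), SepN G0 g → Sep a (fun l => (g l : ℝ)))
    {G : ℕ} (hG : G0 ≤ G) : Inp {K | SL K} (vl Δ G) := by
  classical
  intro N Δ0
  obtain ⟨B, hB1, hB2⟩ := exists_deg (nums N n) (dens N n)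
  obtain ⟨κ, hfin, k0, b, w, hb0, hbD, hw, hb⟩ := exists_basis1 hn (Δ0 * B)
  obtain ⟨E1, hE1⟩ := li_valK hn ha ha0 h0 hf hf0 Δ hsep (Δ0 * B) k0 b w hb0 hbD hw hb N
  obtain ⟨ε, hε, hball⟩ := Metric.eventually_nhds_iff.1 ((Ez_mem hn ha h0 hf Δ).and (Ez_cd hn ha h0 hf Δ))
  obtain ⟨E2, hE2⟩ := small_arg G hε
  refine ⟨(G + 1) * E1 + E2, fun H t ht K hK g hginj hgH P hP hPv => ?_⟩
  have hH2 : 1 ≤ H + 2 := by omega
  have ht1 : (G * H + 2) ^ E1 ≤ t := by
    refine le_trans ?_ ((Nat.pow_le_pow_right hH2 (Nat.le_add_right _ _)).trans ht)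
    rw [pow_mul]
    refine Nat.pow_le_pow_left ?_ _
    have h2 : G + 1 ≤ 2 ^ G := Nat.lt_two_pow_self
    have h3 : 2 ^ G ≤ (H + 2) ^ G := Nat.pow_le_pow_left (by omega) _
    rw [pow_succ]
    nlinarith
  have ht2 : (H + 2) ^ E2 ≤ t := (Nat.pow_le_pow_right hH2 (Nat.le_add_left _ _)).trans ht
  obtain ⟨-, hLI⟩ := hE1 (G * H) t ht1
  have hLI := hLI (fun l => G * g l) (by
    intro l l' hll
    have h1 : g l ≠ g l' := fun h => hll (hginj h)
    push_cast
    rw [← mul_sub, abs_mul]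
    have h2 : (1 : ℤ) ≤ |(g l : ℤ) - g l'| := Int.one_le_abs (sub_ne_zero.2 (by exact_mod_cast h1))
    have h3 : |(G : ℤ)| = G := abs_of_nonneg (by positivity)
    rw [h3]
    have h4 : (G0 : ℤ) ≤ G := by exact_mod_cast hG
    nlinarith) (fun l => Nat.mul_le_mul_left _ (hgH l).2) K hK
  have hgood : ∀ l, Ez Δ.Z (1 / ((t : ℝ) - (G * g l : ℕ))) ∈ SpS ℝ n ∧
      cd ((Ez Δ.Z (1 / ((t : ℝ) - (G * g l : ℕ)))).map (algebraMap ℝ ℂ)) ≠ 0 := fun l =>
    hball (by rw [dist_zero_right]; exact (hE2 H t ht2 (g l) (hgH l).2).2)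
  set Zc : Fin N → Matrix (Fin n) (Fin n) ℂ := fun l =>
    (Ez Δ.Z (1 / ((t : ℝ) - (G * g l : ℕ)))).map (algebraMap ℝ ℂ) with hZc
  set nK : Fin N × Sy n → MvPolynomial (Fin N × Fin n × Fin n) K := fun x => (nums N n x).map (algebraMap ℚ K) with hnK
  set dK : MvPolynomial (Fin N × Fin n × Fin n) K := (dens N n).map (algebraMap ℚ K) with hdK
  set Q := cle Δ0 P nK dK with hQ
  have hdv : ∀ S : Fin N → Matrix (Fin n) (Fin n) ℂ, MvPolynomial.aeval (px S) dK = ∏ l, cd (S l) := by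
    intro S
    rw [hdK, MvPolynomial.aeval_map_algebraMap, dens_val]
  have hQv : ∀ S : Fin N → Matrix (Fin n) (Fin n) ℂ, (∀ l, cd (S l) ≠ 0) →
      MvPolynomial.aeval (px S) Q = (∏ l, cd (S l)) ^ Δ0 * MvPolynomial.aeval (fun x : Fin N × Sy n => co (S x.1) x.2) P := by
    intro S hS
    rw [hQ, cle_val hP nK dK (px S) (fun x : Fin N × Sy n => co (S x.1) x.2)
      (fun x => by
        rw [hdv, hnK]
        simp only
        rw [MvPolynomial.aeval_map_algebraMap, nums_val hS x, dens_val]), hdv]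
  have hQC : DC (Δ0 * B) (subm K) (Q.map (algebraMap K ℂ)) := by
    refine ⟨(totalDegree_map_le _ Q).trans (cle_deg hP (fun x => (totalDegree_map_le _ _).trans (hB1 x))
      ((totalDegree_map_le _ _).trans hB2)), fun s => ?_⟩
    rw [MvPolynomial.coeff_map]
    exact (Q.coeff s).2
  have hQm : ∀ S : Fin N → Matrix (Fin n) (Fin n) ℂ, MvPolynomial.aeval (px S) (Q.map (algebraMap K ℂ)) =
      MvPolynomial.aeval (px S) Q := fun S => MvPolynomial.aeval_map_algebraMap ℂ (px S) Q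
  obtain ⟨c, hc, hexp⟩ := expand hw hQC
  have hZsp : ∀ l, Zc l ∈ SpS ℂ n := fun l => SpS_map _ (hgood l).1
  have h1 := hexp Zc hZsp
  rw [hQm, hQv Zc fun l => (hgood l).2] at h1
  have h2 : MvPolynomial.aeval (fun x : Fin N × Sy n => co (Zc x.1) x.2) P = 0 := hPv
  rw [h2, mul_zero] at h1
  have hc0 : c = 0 := by
    refine hLI c hc ?_
    rw [h1]
    refine Finset.sum_congr rfl fun e _ => ?_
    congr 1
    have h3 : ((∏ i, mnm (Ez Δ.Z (1 / ((t : ℝ) - (G * g i : ℕ)))) (b (e i)) : ℝ) : ℂ) =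
        algebraMap ℝ ℂ (∏ i, mnm (Ez Δ.Z (1 / ((t : ℝ) - (G * g i : ℕ)))) (b (e i))) := rfl
    rw [h3, map_prod]
    refine Finset.prod_congr rfl fun l _ => ?_
    rw [hZc]
    simp only
    rw [mnm_map]
  have hvan : ∀ S : Fin N → Matrix (Fin n) (Fin n) ℂ, (∀ l, S l ∈ SpS ℂ n) → MvPolynomial.aeval (px S) Q = 0 := by
    intro S hS
    rw [← hQm, hexp S hS]
    refine Finset.sum_eq_zero fun e _ => ?_
    rw [hc0, Pi.zero_apply, zero_mul]
  have hPC : P.map (algebraMap K ℂ) = 0 := by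
    refine chart_zero _ fun y hy => ?_
    rw [MvPolynomial.aeval_map_algebraMap]
    have h3 := fun l => co_Cay hn (hy l)
    have h4 := hQv (fun l => Cay fun p => y (l, p)) fun l => (h3 l).1
    rw [hvan _ fun l => Cay_mem hn (hy l)] at h4
    have h5 : (fun x : Fin N × Sy n => co (Cay fun p => y (x.1, p)) x.2) = y := by
      funext x
      rw [(h3 x.1).2]
    rw [h5] at h4
    exact (mul_eq_zero.1 h4.symm).resolve_left
      (pow_ne_zero _ (Finset.prod_ne_zero_iff.2 fun l _ => (h3 l).1))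
  exact (MvPolynomial.map_injective _ (algebraMap K ℂ).injective) (by rw [hPC, map_zero])

end Pool.Agent.L5helper52.HK
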