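import Pool.Agent.Y118.HG.Kx
import Pool.Agent.L5helper52.HK.Wk
import Pool.Agent.L5helper52.HK.Pi

/-!
# The window theorem over simultaneously Liouville fields, final form
-/

set_option autoImplicit false
set_option maxHeartbeats 400000

open Matrix Polynomial Filter Topology

namespace Pool.Agent.L5helper52.HK

open Pool.Agent.Y118.HG hiding toK toK_val toK_deg numK numK_deg numK_val exists_QSK PK PK_val chart_vanK wmainK
open Pool.Agent.Y118.HP Pool.Agent.Y113 Pool.Agent.Y37.GF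
open Pool.Agent.L5helper52.LL (SL)

variable {n N : ℕ}

/-- from the fibre over `2πi` to the torsor -/
theorem tor_of_fib (hn : Even n) (a : Fin N → Fin n → ℝ) (ha : ∀ j, StrictMono (a j))
    (m : Fin N → Fin (n + 1)) (f : Fin N → ℚ[X])
    (hf : ∀ j, (f j).map (algebraMap ℚ ℝ) = ∏ i, (X - C (a j i))) (z : Fin N → ℚ)
    (hgap : ∀ j, InGap (a j) (m j) ((z j : ℚ) : ℝ)) {K : Type} [Field K] [Algebra K ℂ] (ι : ℚ →+* K)
    (htr : Transcendental K (2 * Real.pi * Complex.I : ℂ)) (M : MvPolynomial (Option (Fin N × Fin n × Fin n)) K)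
    (hfib : ∀ X ∈ Fib (fun j => (Qp n (f j)).map (aeval (z j : ℂ))),
        MvPolynomial.aeval (pt X (2 * Real.pi * Complex.I)) M = 0) :
    ∀ x ∈ Tor (fun j => (-1 / 2 : ℂ) • (Qp n (f j)).map (aeval (z j : ℂ))), MvPolynomial.aeval (pt x.1 x.2) M = 0 := by
  classical
  intro x hx
  -- rational trivialisation
  choose X0 hX0 using fun j => exists_X0 hn (ha j) (hf j) (hgap j)
  set X0c : Fin N → Matrix (Fin n) (Fin n) ℂ := fun j => (X0 j).map (algebraMap ℚ ℂ) with hX0c
  have hQc : ∀ j, ((-1 / 2 : ℚ) • (Qp n (f j)).map (Polynomial.eval (z j))).map (algebraMap ℚ ℂ) =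
      (-1 / 2 : ℂ) • (Qp n (f j)).map (aeval (z j : ℂ)) := by
    intro j
    rw [← map_rat]
    ext r c
    rw [Matrix.map_apply, Matrix.smul_apply, Matrix.smul_apply]
    simp only [smul_eq_mul, map_mul]
    congr 1
    simp
  have hX0J : ∀ j, X0c j * ((-1 / 2 : ℂ) • (Qp n (f j)).map (aeval (z j : ℂ))) * (X0c j).transpose = jm ℂ n := by
    intro j
    rw [← hQc, hX0c, ← Matrix.transpose_map, ← Matrix.map_mul, ← Matrix.map_mul, hX0, jm_map]
  obtain ⟨μ0, hμ0⟩ := IsAlgClosed.exists_pow_nat_eq (2 * Real.pi * Complex.I : ℂ) (by norm_num : 0 < 2)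
  have hμtr : Transcendental K μ0 := by
    intro h
    refine htr ?_
    rw [← hμ0]
    exact h.pow 2
  have hμ00 : μ0 ≠ 0 := by
    rintro rfl
    have h1 : (Real.pi : ℂ) ≠ 0 := by exact_mod_cast Real.pi_ne_zero
    have h2 := mul_ne_zero (mul_ne_zero (two_ne_zero (α := ℂ)) h1) Complex.I_ne_zero
    apply h2
    rw [← hμ0]
    simp
  have hrat : ∀ (g : Fin N → Matrix (Fin n) (Fin n) ℚ), (∀ j, g j ∈ SpS ℚ n) → ∀ μ : ℂ,
      MvPolynomial.aeval (Phi X0c μ (fun j => (g j).map (algebraMap ℚ ℂ))) M = 0 := by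
    intro g hg μ
    set q : K[X] := MvPolynomial.aeval (Phi (fun j => (X0 j).map (C.comp ι)) X (fun j => (g j).map (C.comp ι))) M with hq
    have hev : ∀ s : ℂ, aeval s q =
        MvPolynomial.aeval (Phi X0c s (fun j => (g j).map (algebraMap ℚ ℂ))) M := by
      intro s
      have h1 := MvPolynomial.comp_aeval_apply (f := Phi (fun j => (X0 j).map (C.comp ι)) X
        (fun j => (g j).map (C.comp ι))) (aeval s : K[X] →ₐ[K] ℂ) M
      rw [hq, h1]
      congr 2
      funext o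
      have h2 := Phi_map ((aeval s : K[X] →ₐ[K] ℂ) : K[X] →+* ℂ) (fun j => (X0 j).map (C.comp ι)) X
        (fun j => (g j).map (C.comp ι)) o
      have h3 : (fun j => ((X0 j).map (C.comp ι)).map ((aeval s : K[X] →ₐ[K] ℂ) : K[X] →+* ℂ)) = X0c := by
        funext j; ext a b
        simp [X0c]
      have h4 : (fun j => ((g j).map (C.comp ι)).map ((aeval s : K[X] →ₐ[K] ℂ) : K[X] →+* ℂ)) =
          fun j => (g j).map (algebraMap ℚ ℂ) := by
        funext j; ext a b
        simp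
      rw [h3, h4] at h2
      simpa using h2
    have h1 : aeval μ0 q = 0 := by
      rw [hev]
      obtain ⟨-, h2⟩ := Phi_mem (X0 := X0c) hX0J hμ00 (g := fun j => (g j).map (algebraMap ℚ ℂ))
        fun j => SpS_map _ (hg j)
      have h3 : (fun j => μ0 • ((g j).map (algebraMap ℚ ℂ) * X0c j)) ∈
          Fib (fun j => (Qp n (f j)).map (aeval (z j : ℂ))) := by
        intro j
        have := h2 j
        simp only at this
        rw [hμ0] at this
        exact this
      have h4 := hfib _ h3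
      rw [← hμ0] at h4
      exact h4
    have h2 : q = 0 := by
      by_contra hne
      exact hμtr ⟨q, hne, h1⟩
    rw [← hev, h2, map_zero]
  have h5 := dense_tor hn X0c (M.map (algebraMap K ℂ)) (fun ρ g _ hg => by
    rw [MvPolynomial.aeval_map_algebraMap]
    exact hrat g hg _)
  obtain ⟨μ, g, -, hg, hpt⟩ := exists_Phi hn hX0J hx
  have h6 := h5 μ g hg
  rw [MvPolynomial.aeval_map_algebraMap] at h6
  rw [hpt]
  exact h6

/-- relations of bounded degree over the extensions of bounded degree of `K` -/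
def DGK (K : Subfield ℂ) (F : Fin N → ℚ[X]) (c : Option (Fin N × Fin n × Fin n) → ℂ) (D d : ℕ) : Prop :=
  ∀ L : IntermediateField K ℂ, FiniteDimensional K L → Module.finrank K L ≤ D →
    ∀ P : MvPolynomial (Option (Fin N × Fin n × Fin n)) L, P.totalDegree ≤ d → MvPolynomial.aeval c P = 0 →
    ∀ x ∈ TorF (n := n) F, MvPolynomial.aeval (pt x.1 x.2) P = 0

/-- relations of bounded degree with the periods of the central fibre, over the extensions of bounded degree of `K` -/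
def RGK (K : Subfield ℂ) (cc : Fin n × Fin n → ℂ) (F : Fin N → ℚ[X]) (c : Option (Fin N × Fin n × Fin n) → ℂ)
    (D d : ℕ) : Prop :=
  ∀ L : IntermediateField K ℂ, FiniteDimensional K L → Module.finrank K L ≤ D →
    ∀ P : MvPolynomial ((Fin n × Fin n) ⊕ Option (Fin N × Fin n × Fin n)) L, P.totalDegree ≤ d →
    MvPolynomial.aeval (Sum.elim cc c) P = 0 →
    ∀ x ∈ TorF (n := n) F, x.2 = 2 * Real.pi * Complex.I → MvPolynomial.aeval (Sum.elim cc (pt x.1 x.2)) P = 0

/-- **The window theorem over simultaneously Liouville fields** -/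
theorem wfinSL (hn : Even n) (a : Fin n → ℝ) (f : ℚ[X])
    (hf : f.map (algebraMap ℚ ℝ) = ∏ i, (X - C (a i))) (m : Fin (n + 1)) (h0 : StrictMono (er a m 0)) :
    ∃ G0 : ℕ, ∀ G : ℕ, G0 ≤ G → ∀ k D d : ℕ, ∃ E : ℕ, ∀ H t : ℕ, (H + 2) ^ E ≤ t →
      (∀ g : ℕ, g ≤ H → G * g < t ∧ StrictMono (er a m (1 / ((t : ℝ) - G * g)))) ∧
      ∀ K : Subfield ℂ, SL K → ∃ S : Finset ℕ,
        (S.card : Cardinal) ≤ Algebra.trdeg ℚ (IntermediateField.adjoin ℚ (Set.range
          (pt (fun _ : Fin 1 => Matrix.of (cper (er a m 0))) (2 * Real.pi * Complex.I)))) ∧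
        2 * S.card ≤ n * (n + 1) + 2 ∧
        ∀ g : Fin k → ℕ, Function.Injective g → (∀ j, 1 ≤ g j ∧ g j ≤ H ∧ g j ∉ S) →
          ((fun j => Matrix.of (cper (er a m (1 / ((t : ℝ) - G * g j))))), (2 * Real.pi * Complex.I : ℂ)) ∈
            TorF (n := n) (fun j => f * (X - C (1 / ((t : ℚ) - G * g j)))) ∧
          DGK K (fun j => f * (X - C (1 / ((t : ℚ) - G * g j))))
            (pt (fun j => Matrix.of (cper (er a m (1 / ((t : ℝ) - G * g j))))) (2 * Real.pi * Complex.I)) D d ∧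
          RGK K (fun x => cper (er a m 0) x.1 x.2) (fun j => f * (X - C (1 / ((t : ℚ) - G * g j))))
            (pt (fun j => Matrix.of (cper (er a m (1 / ((t : ℝ) - G * g j))))) (2 * Real.pi * Complex.I)) D d := by
  have ha : StrictMono a := (inGap_of_er h0).1
  have hg0 : InGap a m 0 := (inGap_of_er h0).2
  obtain ⟨Tc, hTc1, hTc2, hTc3, hTc4⟩ := exists_Tc hn ha hg0 hf
  obtain ⟨G0, hG0, hsep⟩ := exists_G0 a
  refine ⟨G0, fun G hG k D d => ?_⟩
  obtain ⟨E, hE⟩ := wmainK hn ha hg0 hf hG0 hsep hG Tc hTc3 hTc4 k D d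
  refine ⟨E, fun H t ht => ?_⟩
  obtain ⟨h1, hSK⟩ := hE H t ht
  have hcast : ∀ g : ℕ, (((1 / ((t : ℚ) - (G * g : ℕ)) : ℚ)) : ℝ) = 1 / ((t : ℝ) - G * g) := fun g => by push_cast; rfl
  have hcastQ : ∀ g : ℕ, (1 / ((t : ℚ) - (G * g : ℕ)) : ℚ) = 1 / ((t : ℚ) - G * g) := fun g => by push_cast; rfl
  refine ⟨fun g hg => ⟨(h1 g hg).1, ?_⟩, fun K hK => ?_⟩
  · have := er_of_inGap ha (h1 g hg).2
    rwa [hcast] at this
  obtain ⟨S, hS1, hS2⟩ := hSK K hK
  refine ⟨S, ?_, ?_, fun g hginj hg => ?_⟩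
  · refine le_trans ?_ hTc1
    exact_mod_cast hS1
  · exact (Nat.mul_le_mul_left 2 hS1).trans hTc2
  have hgap : ∀ j, InGap a m (((1 / ((t : ℚ) - (G * g j : ℕ)) : ℚ)) : ℝ) := fun j => (h1 (g j) (hg j).2.1).2
  have hpt : (fun j => Matrix.of (cper (er a m (1 / ((t : ℝ) - G * g j))))) =
      fun j => CM a m (((1 / ((t : ℚ) - (G * g j : ℕ)) : ℚ)) : ℝ) := by
    funext j
    rw [hcast]
    rfl
  have hF : (fun j => f * (X - C (1 / ((t : ℚ) - G * g j)))) =
      fun j => f * (X - C (1 / ((t : ℚ) - (G * g j : ℕ)))) := by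
    funext j
    rw [hcastQ]
  rw [hpt, hF]
  refine ⟨?_, ?_, ?_⟩
  · rw [TorF_eq]
    refine ⟨?_, fun j => CM_mem hn ha hf (hgap j)⟩
    have := Complex.I_ne_zero
    have h2 : (Real.pi : ℂ) ≠ 0 := by exact_mod_cast Real.pi_ne_zero
    exact mul_ne_zero (mul_ne_zero two_ne_zero h2) this
  · intro L hLf hLD P hd hPv x hx
    rw [TorF_eq] at hx
    refine tor_of_fib hn (fun _ => a) (fun _ => ha) (fun _ => m) (fun _ => f) (fun _ => hf)
      (fun j => 1 / ((t : ℚ) - (G * g j : ℕ))) hgap ((algebraMap K L).comp (algebraMap ℚ K))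
      (transc_two_pi_I hK L) P (fun X hX => ?_) x hx
    have hv : ∀ v : Option (Fin k × Fin n × Fin n) → ℂ,
        MvPolynomial.aeval (Sum.elim (fun x : Fin n × Fin n => CM a m 0 x.1 x.2) v) (MvPolynomial.rename Sum.inr P) =
          MvPolynomial.aeval v P := by
      intro v
      rw [MvPolynomial.aeval_rename, Sum.elim_comp_inr]
    have h4 := hS2 g hginj hg L hLf hLD (MvPolynomial.rename Sum.inr P)
      ((MvPolynomial.totalDegree_rename_le _ _).trans hd) (by rw [hv]; exact hPv) X hX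
    rw [hv] at h4
    exact h4
  · intro L hLf hLD P hd hPv x hx hx2
    rw [TorF_eq] at hx
    have h5 : x.1 ∈ Fib (fun i : Fin k => (Qp n f).map (aeval ((1 / ((t : ℚ) - (G * g i : ℕ)) : ℚ) : ℂ))) := by
      intro j
      have := hx.2 j
      rw [hx2] at this
      exact this
    rw [hx2]
    exact hS2 g hginj hg L hLf hLD P hd hPv x.1 h5

end Pool.Agent.L5helper52.HK
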